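import Pool.Agent.helper96.S5.SpecR

/-!
# MP_0b485e_lc, level 5, row s5:MXD: the enumeration of the complement is computable
-/

set_option autoImplicit false

namespace S5

open PF

noncomputable section

open Classical

/-- one move -/
def MXD_st (x : ℕ) (p : ℕ × ℕ) : ℕ := if x < p.1 then x else x + p.2

theorem MXD_mv (H : List (ℕ × ℕ)) (x : ℕ) : mv H x = H.foldl MXD_st x := by
  induction H generalizing x with
  | nil => rfl
  | cons p H ih =>
    rw [List.foldl_cons, ← ih]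
    rfl

theorem MXD_st_pr : Primrec₂ MXD_st := by
  have h : Primrec fun z : ℕ × ℕ × ℕ => if z.1 < z.2.1 then z.1 else z.1 + z.2.2 :=
    Primrec.ite (Primrec.nat_lt.comp Primrec.fst (Primrec.fst.comp Primrec.snd)) Primrec.fst
      (Primrec.nat_add.comp Primrec.fst (Primrec.snd.comp Primrec.snd))
  refine h.of_eq fun z => ?_
  unfold MXD_st
  by_cases hz : z.1 < z.2.1
  · rw [if_pos hz]
  · rw [if_neg hz]

theorem MXD_mv_cp : Computable fun y : List (ℕ × ℕ) × ℕ => mv y.1 y.2 := by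
  have h : Primrec fun y : List (ℕ × ℕ) × ℕ => y.1.foldl (fun x p => MXD_st x p) y.2 :=
    Primrec.list_foldl (f := fun y : List (ℕ × ℕ) × ℕ => y.1) (g := fun y => y.2)
      (h := fun _ z => MXD_st z.1 z.2) Primrec.fst Primrec.snd
      (MXD_st_pr.comp (Primrec.fst.comp Primrec.snd) (Primrec.snd.comp Primrec.snd)).to₂
  exact h.to_comp.of_eq fun y => (MXD_mv y.1 y.2).symm

theorem MXD_est : Computable fun y : (ℕ × ℕ) × ℕ => est y.1.1 y.1.2 y.2 := by
  have hh : Computable₂ (fun (y : (ℕ × ℕ) × ℕ) (z : ℕ × ℕ) =>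
      2 * z.2 + if Wst z.1 y.2 y.1.2 then 1 else 0) := by
    have h1 : ComputablePred fun w : ((ℕ × ℕ) × ℕ) × ℕ × ℕ => Wst w.2.1 w.1.2 w.1.1.2 :=
      cp_comp (f := fun w : ((ℕ × ℕ) × ℕ) × ℕ × ℕ => (w.2.1, w.1.2, w.1.1.2))
        ((Computable.fst.comp Computable.snd).pair ((Computable.snd.comp Computable.fst).pair
          (Computable.snd.comp (Computable.fst.comp Computable.fst)))) Wst_computable
    have h2 : Computable fun w : ((ℕ × ℕ) × ℕ) × ℕ × ℕ =>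
        if Wst w.2.1 w.1.2 w.1.1.2 then 1 else 0 := cp_ite h1 (Computable.const 1) (Computable.const 0)
    have h3 : Computable fun w : ((ℕ × ℕ) × ℕ) × ℕ × ℕ => 2 * w.2.2 :=
      (Primrec.nat_mul.comp (Primrec.const 2) (Primrec.snd.comp Primrec.snd)).to_comp
    exact Primrec.nat_add.to_comp.comp h3 h2
  have h := Computable.nat_rec (f := fun y : (ℕ × ℕ) × ℕ => y.1.1 + 1) (g := fun _ => 0)
    (Primrec.succ.comp (Primrec.fst.comp Primrec.fst)).to_comp (Computable.const 0) hh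
  refine h.of_eq fun y => ?_
  unfold est
  generalize y.1.1 + 1 = k
  induction k with
  | zero => rfl
  | succ k ih =>
    show 2 * _ + _ = 2 * bv (fun b => Wst b y.2 y.1.2) k + _
    rw [← ih]

theorem MXD_mq : ComputablePred fun y : (ℕ × List (ℕ × ℕ)) × ℕ × ℕ => mq y.1.1 y.1.2 y.2.1 y.2.2 := by
  have hs : Computable fun y : (ℕ × List (ℕ × ℕ)) × ℕ × ℕ => y.1.1 := Computable.fst.comp Computable.fst
  have hH : Computable fun y : (ℕ × List (ℕ × ℕ)) × ℕ × ℕ => y.1.2 := Computable.snd.comp Computable.fst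
  have he : Computable fun y : (ℕ × List (ℕ × ℕ)) × ℕ × ℕ => y.2.1 := Computable.fst.comp Computable.snd
  have hd : Computable fun y : (ℕ × List (ℕ × ℕ)) × ℕ × ℕ => y.2.2 := Computable.snd.comp Computable.snd
  have hi : Computable fun y : (ℕ × List (ℕ × ℕ)) × ℕ × ℕ => y.2.1 + y.2.2 + 1 :=
    Primrec.succ.to_comp.comp (Primrec.nat_add.to_comp.comp he hd)
  have h1 : Computable fun y : (ℕ × List (ℕ × ℕ)) × ℕ × ℕ => mv y.1.2 y.2.1 :=
    MXD_mv_cp.comp (hH.pair he)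
  have h2 : Computable fun y : (ℕ × List (ℕ × ℕ)) × ℕ × ℕ => mv y.1.2 (y.2.1 + y.2.2 + 1) :=
    MXD_mv_cp.comp (hH.pair hi)
  have h3 : Computable fun y : (ℕ × List (ℕ × ℕ)) × ℕ × ℕ => est y.2.1 (mv y.1.2 y.2.1) y.1.1 :=
    Computable.comp (f := fun y : (ℕ × ℕ) × ℕ => est y.1.1 y.1.2 y.2)
      (g := fun y : (ℕ × List (ℕ × ℕ)) × ℕ × ℕ => ((y.2.1, mv y.1.2 y.2.1), y.1.1))
      MXD_est ((he.pair h1).pair hs)
  have h4 : Computable fun y : (ℕ × List (ℕ × ℕ)) × ℕ × ℕ =>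
      est y.2.1 (mv y.1.2 (y.2.1 + y.2.2 + 1)) y.1.1 :=
    Computable.comp (f := fun y : (ℕ × ℕ) × ℕ => est y.1.1 y.1.2 y.2)
      (g := fun y : (ℕ × List (ℕ × ℕ)) × ℕ × ℕ => ((y.2.1, mv y.1.2 (y.2.1 + y.2.2 + 1)), y.1.1))
      MXD_est ((he.pair h2).pair hs)
  have h5 := cp_and (cp_le hi hs) (cp_lt h3 h4)
  refine h5.of_eq fun y => ?_
  unfold mq
  exact Iff.rfl

/-- the position of the action -/
def MXD_E (a : ℕ × List (ℕ × ℕ)) : ℕ := lst fun e => ∃ d, mq a.1 a.2 e d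

theorem MXD_Q1 : ComputablePred fun x : (ℕ × List (ℕ × ℕ)) × ℕ => ∃ d, mq x.1.1 x.1.2 x.2 d := by
  have h : ComputablePred fun x : (ℕ × List (ℕ × ℕ)) × ℕ => ∃ d < x.1.1, mq x.1.1 x.1.2 x.2 d :=
    cp_bex (p := fun (x : (ℕ × List (ℕ × ℕ)) × ℕ) (d : ℕ) => mq x.1.1 x.1.2 x.2 d)
      (cp_comp (f := fun z : ((ℕ × List (ℕ × ℕ)) × ℕ) × ℕ => (z.1.1, z.1.2, z.2))
        ((Computable.fst.comp Computable.fst).pair ((Computable.snd.comp Computable.fst).pair
          Computable.snd)) MXD_mq) (Computable.fst.comp Computable.fst)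
  refine h.of_eq fun x => ⟨fun ⟨d, _, hd⟩ => ⟨d, hd⟩, fun ⟨d, hd⟩ => ⟨d, ?_, hd⟩⟩
  have := hd.1
  omega

theorem MXD_E_cp : Computable MXD_E := by
  refine cp_lst (Q := fun (a : ℕ × List (ℕ × ℕ)) e => ∃ d, mq a.1 a.2 e d) MXD_Q1
    (b := fun a => a.1) Computable.fst ?_
  rintro a ⟨e, d, hd⟩
  exact ⟨e, by have := hd.1; omega, d, hd⟩

theorem MXD_D_cp : Computable fun a : ℕ × List (ℕ × ℕ) => lst fun d => mq a.1 a.2 (MXD_E a) d := by
  refine cp_lst (Q := fun (a : ℕ × List (ℕ × ℕ)) d => mq a.1 a.2 (MXD_E a) d) ?_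
    (b := fun a => a.1) Computable.fst ?_
  · exact cp_comp (f := fun z : (ℕ × List (ℕ × ℕ)) × ℕ => (z.1, MXD_E z.1, z.2))
      (Computable.fst.pair ((MXD_E_cp.comp Computable.fst).pair Computable.snd)) MXD_mq
  · rintro a ⟨d, hd⟩
    exact ⟨d, by have := hd.1; omega, hd⟩

theorem MXD_mact : Computable fun a : ℕ × List (ℕ × ℕ) => mact a.1 a.2 := by
  have h1 : ComputablePred fun a : ℕ × List (ℕ × ℕ) => ∃ e d, mq a.1 a.2 e d := by
    have h : ComputablePred fun a : ℕ × List (ℕ × ℕ) => ∃ e < a.1, ∃ d, mq a.1 a.2 e d :=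
      cp_bex (p := fun (a : ℕ × List (ℕ × ℕ)) (e : ℕ) => ∃ d, mq a.1 a.2 e d) MXD_Q1 Computable.fst
    refine h.of_eq fun a => ⟨fun ⟨e, _, hd⟩ => ⟨e, hd⟩, fun ⟨e, d, hd⟩ => ⟨e, ?_, d, hd⟩⟩
    have := hd.1
    omega
  have h2 : Computable fun a : ℕ × List (ℕ × ℕ) =>
      (MXD_E a, (lst fun d => mq a.1 a.2 (MXD_E a) d) + 1) :=
    MXD_E_cp.pair (Primrec.succ.to_comp.comp MXD_D_cp)
  refine (cp_ite h1 h2 (Computable.const (0, 0))).of_eq fun a => ?_
  rfl

theorem MXD_row : MXD_stmt := by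
  have hh : Computable₂ (fun (_ : ℕ) (z : ℕ × List (ℕ × ℕ)) => mact z.1 z.2 :: z.2) := by
    have h1 : Computable fun w : ℕ × ℕ × List (ℕ × ℕ) => mact w.2.1 w.2.2 :=
      MXD_mact.comp Computable.snd
    exact Computable.list_cons.comp h1 (Computable.snd.comp Computable.snd)
  have h := Computable.nat_rec (f := fun s : ℕ => s) (g := fun _ => ([] : List (ℕ × ℕ)))
    Computable.id (Computable.const []) hh
  have h2 : Computable mH := by
    refine h.of_eq fun s => ?_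
    induction s with
    | zero => rfl
    | succ s ih =>
      show mact s _ :: _ = mact s (mH s) :: mH s
      rw [← ih]
  exact MXD_mv_cp.comp ((h2.comp Computable.fst).pair Computable.snd)

end

end S5
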