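import Pool.Agent.helper96.S5.SpecR

/-!
# MP_0b485e_lc, level 5, row s5:MXE: there is a maximal set
-/

set_option autoImplicit false

namespace S5

open PF

noncomputable section

open Classical

theorem MXE_row (hMXA : MXA_stmt) (hMXB : MXB_stmt) (hMXC : MXC_stmt) (hMXD : MXD_stmt) :
    MXE_stmt := by
  obtain ⟨hA1, -, hA3, -⟩ := hMXA
  choose a ha using hMXB
  have hle : ∀ s x, x ≤ mm s x := fun s x => (hA1 s).id_le x
  have hran : ∀ s s', s ≤ s' → Set.range (mm s') ⊆ Set.range (mm s) := by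
    intro s s' h
    induction s', h using Nat.le_induction with
    | base => exact Set.Subset.rfl
    | succ s' _ ih => exact (hA3 s').trans ih
  have hamono : StrictMono a := by
    intro x y hxy
    obtain ⟨n1, h1⟩ := ha x
    obtain ⟨n2, h2⟩ := ha y
    have h3 := h1 (max n1 n2) (le_max_left _ _)
    have h4 := h2 (max n1 n2) (le_max_right _ _)
    rw [← h3, ← h4]
    exact hA1 _ hxy
  have hmem : ∀ z, z ∉ {z | ∃ s, ∀ x < z + 1, mm s x ≠ z} ↔ z ∈ Set.range a := by
    intro z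
    constructor
    · intro hz
      have hz' : ∀ s, ∃ x, x < z + 1 ∧ mm s x = z := by
        intro s
        by_contra hcon
        exact hz ⟨s, fun x hx hxz => hcon ⟨x, hx, hxz⟩⟩
      choose n0 hn0 using ha
      obtain ⟨x, hx, hxz⟩ := hz' ((Finset.range (z + 1)).sup n0)
      refine ⟨x, ?_⟩
      rw [← hxz]
      exact (hn0 x _ (Finset.le_sup (f := n0) (Finset.mem_range.2 hx))).symm
    · rintro ⟨x, rfl⟩ ⟨s, hs⟩
      obtain ⟨n0, hn0⟩ := ha x
      have h1 : a x ∈ Set.range (mm s) :=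
        hran s (max s n0) (le_max_left _ _) ⟨x, hn0 _ (le_max_right _ _)⟩
      obtain ⟨y, hy⟩ := h1
      exact hs y (by have := hle s y; omega) hy
  refine ⟨{z | ∃ s, ∀ x < z + 1, mm s x ≠ z}, ?_, ?_, ?_⟩
  · have h1 : ComputablePred fun w : (ℕ × ℕ) × ℕ => mm w.1.2 w.2 ≠ w.1.1 :=
      cp_not (cp_eq (f := fun w : (ℕ × ℕ) × ℕ => mm w.1.2 w.2) (g := fun w => w.1.1)
        (Computable.comp (f := fun x : ℕ × ℕ => mm x.1 x.2) (g := fun w : (ℕ × ℕ) × ℕ => (w.1.2, w.2))
          hMXD ((Computable.snd.comp Computable.fst).pair Computable.snd))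
        (Computable.fst.comp Computable.fst))
    have h2 : ComputablePred fun y : ℕ × ℕ => ∀ x < y.1 + 1, mm y.2 x ≠ y.1 :=
      cp_ball (p := fun (y : ℕ × ℕ) (x : ℕ) => mm y.2 x ≠ y.1) (g := fun y : ℕ × ℕ => y.1 + 1) h1
        (Primrec.succ.comp Primrec.fst).to_comp
    exact re_ex (p := fun (z : ℕ) (s : ℕ) => ∀ x < z + 1, mm s x ≠ z) h2.to_re
  · have h1 : {z | z ∉ {z | ∃ s, ∀ x < z + 1, mm s x ≠ z}} = Set.range a := by
      ext z
      exact hmem z
    rw [h1]
    exact Set.infinite_range_of_injective hamono.injective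
  · intro P hP
    obtain ⟨b, hb⟩ := We_surj hP.to_re
    rcases hMXC a ha b with ⟨n0, hn0⟩ | ⟨n0, hn0⟩
    · left
      refine ((Set.finite_lt_nat n0).image a).subset ?_
      rintro z ⟨hz, hPz⟩
      obtain ⟨x, rfl⟩ := (hmem z).1 hz
      refine ⟨x, ?_, rfl⟩
      show x < n0
      by_contra hx
      exact hPz ((hb _).1 (hn0 x (not_lt.1 hx)))
    · right
      refine ((Set.finite_lt_nat n0).image a).subset ?_
      rintro z ⟨hz, hPz⟩
      obtain ⟨x, rfl⟩ := (hmem z).1 hz
      refine ⟨x, ?_, rfl⟩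
      show x < n0
      by_contra hx
      exact hn0 x (not_lt.1 hx) ((hb _).2 hPz)

end

end S5
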