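import Pool.Agent.helper96.S5.SpecL

/-!
# MP_0b485e_lc, level 5, row s5:RJY
-/

set_option autoImplicit false

namespace S5

open PF

noncomputable section

/-- renaming of the variables of a term -/
def RJY_ren (σ : ℕ → ℕ) : Tm → Tm
  | .var i => .var (σ i)
  | .bot => .bot
  | .top => .top
  | .sup a b => .sup (RJY_ren σ a) (RJY_ren σ b)
  | .inf a b => .inf (RJY_ren σ a) (RJY_ren σ b)

theorem RJY_ren_ev {L : Type} [Lattice L] [BoundedOrder L] (σ : ℕ → ℕ) (e : ℕ → L) (t : Tm) :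
    (RJY_ren σ t).ev e = t.ev (fun i => e (σ i)) := by
  induction t with
  | var i => rfl
  | bot => rfl
  | top => rfl
  | sup a b ha hb =>
    show (RJY_ren σ a).ev e ⊔ (RJY_ren σ b).ev e = _
    rw [ha, hb]
    rfl
  | inf a b ha hb =>
    show (RJY_ren σ a).ev e ⊓ (RJY_ren σ b).ev e = _
    rw [ha, hb]
    rfl

theorem RJY_cg {L : Type} [Lattice L] [BoundedOrder L] {n : ℕ} {b : Bool} {P Q : Pp L}
    (h : ∀ δ e, P δ e ↔ Q δ e) (hP : Rp L n b P) : Rp L n b Q := by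
  obtain ⟨q, μ, h1, h2⟩ := hP
  exact ⟨q, μ, h1, fun δ e => (h δ e).symm.trans (h2 δ e)⟩

theorem RJY_row (hPRN : PRN_stmt) (hPQX : PQX_stmt) (hPAT : PAT_stmt) : RJY_stmt := by
  intro L _ _ pi t
  refine ⟨?_, ?_⟩
  · have h0 := (hPAT L 0 true).1 (.and (.eq (.sup (RJY_ren (fun i => i + 2) t) (.var 1)) .top)
      (.and (.eq (.inf (RJY_ren (fun i => i + 2) t) (.var 1)) .bot)
        (.and (.eq (.inf (.var 0) (.var (pi 3 + 2))) .bot)
          (.eq (RJY_ren (fun i => i + 2) t)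
            (.sup (.var 0) (.inf (RJY_ren (fun i => i + 2) t) (.var (pi 3 + 2))))))))
    have h1 := (hPQX L 0 _).2.1 h0
    have h2 := (hPQX L 0 _).1 h1
    refine RJY_cg ?_ h2
    intro δ e
    have hr : ∀ x y : L, (RJY_ren (fun i => i + 2) t).ev (cns y (cns x e)) = t.ev e := by
      intro x y
      rw [RJY_ren_ev]
      rfl
    show (∃ x, ∃ y, (RJY_ren (fun i => i + 2) t).ev (cns y (cns x e)) ⊔ x = ⊤ ∧
      (RJY_ren (fun i => i + 2) t).ev (cns y (cns x e)) ⊓ x = ⊥ ∧ y ⊓ e (pi 3) = ⊥ ∧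
      (RJY_ren (fun i => i + 2) t).ev (cns y (cns x e)) =
        y ⊔ ((RJY_ren (fun i => i + 2) t).ev (cns y (cns x e)) ⊓ e (pi 3))) ↔ _
    simp only [hr]
    exact Iff.rfl
  · have h0 := (hPAT L 0 true).1 (.and (.eq (.inf (.var 0) (.var (pi 4 + 1))) .bot)
      (.eq (RJY_ren (fun i => i + 1) t)
        (.sup (.var 0) (.inf (RJY_ren (fun i => i + 1) t) (.var (pi 4 + 1))))))
    have h1 := (hPQX L 0 _).2.1 h0
    refine RJY_cg ?_ h1
    intro δ e
    have hr : ∀ x : L, (RJY_ren (fun i => i + 1) t).ev (cns x e) = t.ev e := by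
      intro x
      rw [RJY_ren_ev]
      rfl
    show (∃ x, x ⊓ e (pi 4) = ⊥ ∧ (RJY_ren (fun i => i + 1) t).ev (cns x e) =
        x ⊔ ((RJY_ren (fun i => i + 1) t).ev (cns x e) ⊓ e (pi 4))) ↔ _
    simp only [hr]
    exact Iff.rfl

end

end S5
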