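import Pool.Agent.helper96.S5.SpecL

/-!
# MP_0b485e_lc, level 5, row s5:RKS
-/

set_option autoImplicit false

namespace S5

open PF

noncomputable section

/-- renaming of the variables of a term -/
def RKS_ren (σ : ℕ → ℕ) : Tm → Tm
  | .var i => .var (σ i)
  | .bot => .bot
  | .top => .top
  | .sup a b => .sup (RKS_ren σ a) (RKS_ren σ b)
  | .inf a b => .inf (RKS_ren σ a) (RKS_ren σ b)

theorem RKS_ren_ev {L : Type} [Lattice L] [BoundedOrder L] (σ : ℕ → ℕ) (e : ℕ → L) (t : Tm) :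
    (RKS_ren σ t).ev e = t.ev (fun i => e (σ i)) := by
  induction t with
  | var i => rfl
  | bot => rfl
  | top => rfl
  | sup a b ha hb =>
    show (RKS_ren σ a).ev e ⊔ (RKS_ren σ b).ev e = _
    rw [ha, hb]
    rfl
  | inf a b ha hb =>
    show (RKS_ren σ a).ev e ⊓ (RKS_ren σ b).ev e = _
    rw [ha, hb]
    rfl

theorem RKS_cg {L : Type} [Lattice L] [BoundedOrder L] {n : ℕ} {b : Bool} {P Q : Pp L}
    (h : ∀ δ e, P δ e ↔ Q δ e) (hP : Rp L n b P) : Rp L n b Q := by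
  obtain ⟨q, μ, h1, h2⟩ := hP
  exact ⟨q, μ, h1, fun δ e => (h δ e).symm.trans (h2 δ e)⟩

theorem RKS_row (hPMO : PMO_stmt) (hPQX : PQX_stmt) (hPNG : PNG_stmt) (hPAO : PAO_stmt)
    (hPAT : PAT_stmt) (hRJY : RJY_stmt) : RKS_stmt := by
  intro L _ _ pi t
  -- the part after `∀ Y'`
  have a1 := hPNG L 1 false _ (hRJY L (fun i => pi i + 2) (.var 0)).2
  have a2 := hPNG L 1 false _ ((hPAT L 1 false).2.2.2.1 (.inf (.var 0) (.var 1)) (.var (pi 2 + 2)))
  have a3 := (hPAT L 1 true).2.2.2.1 (.inf (.var 0) (RKS_ren (fun i => i + 2) t)) (.var (pi 2 + 2))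
  have a4 := (hPAO L 1 true _ _ a1 (hPAO L 1 true _ _ a2 a3).2).2
  have a5 := hPMO L 1 true false _ ((hPQX L 0 _).2.2.1 a4)
  -- the part after `∃ Y`
  have b1 := hPMO L 1 false false _ (hRJY L (fun i => pi i + 1) (.var 0)).2
  have b2 := (hPQX L 1 _).1 (hPAO L 2 false _ _ b1 a5).1
  refine RKS_cg ?_ b2
  intro δ e
  have hr : ∀ x y : L, (RKS_ren (fun i => i + 2) t).ev (cns y (cns x e)) = t.ev e := by
    intro x y
    rw [RKS_ren_ev]
    rfl
  show (∃ x : L, Yy (fun i => e (pi i)) x ∧ ∀ y : L, ¬ Yy (fun i => e (pi i)) y ∨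
    (¬ (y ⊓ x ≤ e (pi 2)) ∨
      y ⊓ (RKS_ren (fun i => i + 2) t).ev (cns y (cns x e)) ≤ e (pi 2))) ↔ _
  simp only [hr]
  refine exists_congr fun x => and_congr_right fun _ => forall_congr' fun y => ?_
  constructor
  · intro h h1 h2
    rcases h with h | h | h
    · exact absurd h1 h
    · exact absurd h2 h
    · exact h
  · intro h
    by_cases h1 : Yy (fun i => e (pi i)) y
    · by_cases h2 : y ⊓ x ≤ e (pi 2)
      · exact Or.inr (Or.inr (h h1 h2))
      · exact Or.inr (Or.inl h2)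
    · exact Or.inl h1

end

end S5
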